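import Pool.Agent.Q55.DT.Stm2

/-! Project DT (helper55), job DT-DIMD (helper91): the dimension of the determinantal ring. -/

set_option autoImplicit false

namespace Pool.Agent.Q91.DT

open Module Pool.Agent.Q55.DT

theorem dimd : S_DimD := by
  intro hLoc hUp hGr hLow hLen K _ n m r hr hrn hrm
  obtain ⟨hN, hL, hres, hmem, -⟩ := hLoc K n m (r + 1) (by omega)
  have hmax : mIdeal K n m (r + 1) = IsLocalRing.maximalIdeal (DetRing K n m (r + 1)) := by
    ext a
    rw [hmem a, IsLocalRing.mem_maximalIdeal]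
    rfl
  have hle := hUp K n m r hr hrn hrm
  refine le_antisymm hle ?_
  obtain ⟨h, hh⟩ : ∃ h : ℕ, ringKrullDim (DetRing K n m (r + 1)) = h := by
    have hnt : Nontrivial (DetRing K n m (r + 1)) := inferInstance
    have h0 := ringKrullDim_nonneg_of_nontrivial (R := DetRing K n m (r + 1))
    obtain ⟨x, hx⟩ := WithBot.ne_bot_iff_exists.1 (ne_bot_of_le_ne_bot (by simp) h0)
    rw [← hx] at hle ⊢
    have h1 : x ≤ ((r * (n + m - r) : ℕ) : ℕ∞) := by
      have h2 : (x : WithBot ℕ∞) ≤ (((r * (n + m - r) : ℕ) : ℕ∞) : WithBot ℕ∞) := hle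
      exact WithBot.coe_le_coe.1 h2
    obtain ⟨h, hh⟩ := ENat.ne_top_iff_exists.1 (ne_top_of_le_ne_top (ENat.natCast_ne_top _) h1)
    exact ⟨h, by rw [← hh]; rfl⟩
  rw [hh] at hle ⊢
  have hle' : h ≤ r * (n + m - r) := by exact_mod_cast hle
  by_contra hcon
  have hlt : h < r * (n + m - r) := by
    rcases Nat.lt_or_ge h (r * (n + m - r)) with h1 | h1
    · exact h1
    · exact absurd (by exact_mod_cast h1) hcon
  obtain ⟨c, hc⟩ := hGr (DetRing K n m (r + 1)) h hh
  obtain ⟨d, hd⟩ : ∃ d, d = r * (n + m - r) := ⟨_, rfl⟩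
  have key : ∀ k : ℕ, 1 ≤ k → k ^ d ≤ d.factorial * (c * k ^ h) := by
    intro k hk
    obtain ⟨hfin, h1⟩ := hLow K n m r hr hrn hrm k
    have h2 := hLen K (DetRing K n m (r + 1)) hres (mIdeal K n m (r + 1) ^ k)
    have h3 := hc k hk
    rw [← hmax, h2, Module.length_eq_finrank] at h3
    have h4 : finrank K (DetRing K n m (r + 1) ⧸ mIdeal K n m (r + 1) ^ k) ≤ c * k ^ h := by
      exact_mod_cast h3
    rw [← hd] at h1
    exact h1.trans (Nat.mul_le_mul_left _ h4)
  have h5 := key (d.factorial * c + 1) (by omega)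
  have h6 : (d.factorial * c + 1) ^ (h + 1) ≤ (d.factorial * c + 1) ^ d :=
    Nat.pow_le_pow_right (by omega) (by omega)
  rw [pow_succ] at h6
  have h7 : 0 < (d.factorial * c + 1) ^ h := by positivity
  have h8 : (d.factorial * c + 1) ^ h * (d.factorial * c + 1) ≤
      (d.factorial * c + 1) ^ h * (d.factorial * c) := by
    calc _ ≤ _ := h6
      _ ≤ _ := h5
      _ = _ := by ring
  have h9 := Nat.le_of_mul_le_mul_left h8 h7
  omega

end Pool.Agent.Q91.DT
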